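import Pool.Agent.Helper48.Lang.Goals

/-!
Packet LG-GRO: growth of the powers of a finite-dimensional subspace of a field.
-/

set_option autoImplicit false
set_option maxHeartbeats 400000

namespace Pool.Agent.Helper48.Lang.GRO

noncomputable section

open MvPolynomial

universe u v

section

variable {R : Type v} {K : Type u} [Field R] [Field K] [Algebra R K]

/-- common denominators. -/
theorem common_denom {σ : Type*} (t : σ → K) {ι : Type*} [Fintype ι]
    (γ : ι → IntermediateField.adjoin R (Set.range t)) :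
    ∃ g : K, g ≠ 0 ∧ ∃ P : ι → MvPolynomial σ R, ∀ i, g * (γ i : K) = aeval t (P i) := by
  classical
  have h1 : ∀ i, ∃ p q : MvPolynomial σ R, aeval t q ≠ 0 ∧
      (γ i : K) * aeval t q = aeval t p := by
    intro i
    obtain ⟨r, s, hrs⟩ := (IntermediateField.mem_adjoin_range_iff R t (γ i : K)).1 (γ i).2
    by_cases hs : aeval t s = 0
    · refine ⟨0, 1, by simp, ?_⟩
      rw [hrs, hs, div_zero, zero_mul, map_zero]
    · refine ⟨r, s, hs, ?_⟩
      rw [hrs, div_mul_cancel₀ _ hs]
  choose p q hq hpq using h1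
  refine ⟨∏ i, aeval t (q i), Finset.prod_ne_zero_iff.2 fun i _ => hq i,
    fun i => p i * ∏ j ∈ Finset.univ.erase i, q j, fun i => ?_⟩
  rw [map_mul, map_prod, ← hpq i, ← Finset.mul_prod_erase Finset.univ _ (Finset.mem_univ i)]
  ring

/-- the space `M_D`. -/
def MD {h b : Type} (R : Type v) [Field R] [Algebra R K] [Fintype h] (t : h → K) (w : b → K)
    (D : ℕ) : Submodule R K :=
  Submodule.span R (Set.range fun p : (h → Fin (D + 1)) × b => (∏ j, t j ^ (p.1 j : ℕ)) * w p.2)

theorem mem_MD {h b : Type} [Fintype h] (t : h → K) (w : b → K) (D : ℕ) (μ : h → ℕ)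
    (hμ : ∀ j, μ j ≤ D) (c : b) : (∏ j, t j ^ μ j) * w c ∈ MD R t w D := by
  apply Submodule.subset_span
  exact ⟨(fun j => ⟨μ j, Nat.lt_succ_of_le (hμ j)⟩, c), rfl⟩

theorem aeval_mul_mem {h b : Type} [Fintype h] (t : h → K) (w : b → K) (D δ : ℕ)
    (P : MvPolynomial h R) (hP : ∀ j, degreeOf j P ≤ δ) (x : K) (hx : x ∈ MD R t w D) :
    aeval t P * x ∈ MD R t w (D + δ) := by
  induction hx using Submodule.span_induction with
  | mem x hx =>
    obtain ⟨p, rfl⟩ := hx
    rw [MvPolynomial.aeval_def, MvPolynomial.eval₂_eq', Finset.sum_mul]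
    refine Submodule.sum_mem _ fun ν hν => ?_
    have e : algebraMap R K (coeff ν P) * (∏ i, t i ^ ν i) *
        ((∏ j, t j ^ (p.1 j : ℕ)) * w p.2)
        = coeff ν P • ((∏ j, t j ^ (ν j + (p.1 j : ℕ))) * w p.2) := by
      rw [Algebra.smul_def, Finset.prod_congr rfl fun j _ => pow_add (t j) (ν j) (p.1 j : ℕ),
        Finset.prod_mul_distrib]
      ring
    simp only
    rw [e]
    refine Submodule.smul_mem _ _ (mem_MD t w _ _ (fun j => ?_) _)
    have h1 : ν j ≤ degreeOf j P := monomial_le_degreeOf j hν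
    have h2 := hP j
    have h3 := (p.1 j).2
    omega
  | zero => rw [mul_zero]; exact zero_mem _
  | add x y _ _ hx hy => rw [mul_add]; exact add_mem hx hy
  | smul c x _ hx => rw [mul_smul_comm]; exact Submodule.smul_mem _ _ hx

theorem step {h b : Type} [Fintype h] [Fintype b] (t : h → K) (w : b → K) (δ : ℕ) (g : K) (S : Set K)
    (P : S → b → b → MvPolynomial h R) (hP : ∀ e a c j, degreeOf j (P e a c) ≤ δ)
    (hg : ∀ (e : S) (a : b), g * (e : K) * w a = ∑ c, aeval t (P e a c) * w c) (D : ℕ) (e : K)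
    (he : e ∈ Submodule.span R S) (x : K) (hx : x ∈ MD R t w D) :
    g * e * x ∈ MD R t w (D + δ) := by
  induction he using Submodule.span_induction with
  | mem e he =>
    induction hx using Submodule.span_induction with
    | mem x hx =>
      obtain ⟨p, rfl⟩ := hx
      have e1 : g * e * ((∏ j, t j ^ (p.1 j : ℕ)) * w p.2)
          = ∑ c, aeval t (P ⟨e, he⟩ p.2 c) * ((∏ j, t j ^ (p.1 j : ℕ)) * w c) := by
        have e2 := hg ⟨e, he⟩ p.2
        simp only at e2
        rw [show g * e * ((∏ j, t j ^ (p.1 j : ℕ)) * w p.2)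
          = (∏ j, t j ^ (p.1 j : ℕ)) * (g * e * w p.2) by ring, e2, Finset.mul_sum]
        exact Finset.sum_congr rfl fun c _ => by ring
      simp only
      rw [e1]
      refine Submodule.sum_mem _ fun c _ => aeval_mul_mem t w D δ _ (hP _ _ _) _ ?_
      exact mem_MD t w D _ (fun j => Nat.lt_succ_iff.1 (p.1 j).2) c
    | zero => rw [mul_zero]; exact zero_mem _
    | add x y _ _ hx hy => rw [mul_add]; exact add_mem hx hy
    | smul c x _ hx => rw [mul_smul_comm]; exact Submodule.smul_mem _ _ hx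
  | zero => rw [mul_zero, zero_mul]; exact zero_mem _
  | add x y _ _ hx hy => rw [mul_add, add_mul]; exact add_mem hx hy
  | smul c x _ hx => rw [mul_smul_comm, smul_mul_assoc]; exact Submodule.smul_mem _ _ hx

theorem powers {h b : Type} [Fintype h] [Fintype b] (t : h → K) (w : b → K) (δ : ℕ) (g : K)
    (E : Submodule R K)
    (hE : ∀ (D : ℕ) (e : K), e ∈ E → ∀ x : K, x ∈ MD R t w D → g * e * x ∈ MD R t w (D + δ))
    (c : b) (m : ℕ) (x : K) (hx : x ∈ E ^ m) : g ^ m * w c * x ∈ MD R t w (δ * m) := by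
  induction m generalizing x with
  | zero =>
    rw [pow_zero] at hx
    obtain ⟨r, rfl⟩ := Submodule.mem_one.1 hx
    rw [pow_zero, one_mul, mul_comm (w c), ← Algebra.smul_def]
    refine Submodule.smul_mem _ _ ?_
    have := mem_MD (R := R) t w (δ * 0) (fun _ => 0) (fun _ => Nat.zero_le _) c
    simpa using this
  | succ m ih =>
    rw [pow_succ'] at hx
    induction hx using Submodule.mul_induction_on' with
    | mem_mul_mem e he y hy =>
      have := hE _ e he _ (ih y hy)
      rw [show g ^ (m + 1) * w c * (e * y) = g * e * (g ^ m * w c * y) by ring, mul_add, mul_one]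
      exact this
    | add x _ y _ hx hy => rw [mul_add (g ^ (m + 1) * w c)]; exact add_mem hx hy

theorem finrank_le {h b : Type} [Fintype h] [Fintype b] (t : h → K) (w : b → K) (δ : ℕ) (g : K)
    (hg : g ≠ 0) (E : Submodule R K)
    (hE : ∀ (D : ℕ) (e : K), e ∈ E → ∀ x : K, x ∈ MD R t w D → g * e * x ∈ MD R t w (D + δ))
    (c : b) (hc : w c ≠ 0) (m : ℕ) :
    Module.finrank R (E ^ m : Submodule R K)
      ≤ (δ * m + 1) ^ Fintype.card h * Fintype.card b := by
  classical
  have hfin : Module.Finite R (MD R t w (δ * m)) :=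
    FiniteDimensional.span_of_finite R (Set.finite_range _)
  let φ : (E ^ m : Submodule R K) →ₗ[R] MD R t w (δ * m) :=
    LinearMap.codRestrict _ ((LinearMap.mulLeft R (g ^ m * w c)).comp (Submodule.subtype _))
      (fun x => powers t w δ g E hE c m x.1 x.2)
  have hφ : Function.Injective φ := by
    intro x y hxy
    have h1 : g ^ m * w c * (x : K) = g ^ m * w c * (y : K) := congrArg Subtype.val hxy
    exact Subtype.ext (mul_left_cancel₀ (mul_ne_zero (pow_ne_zero _ hg) hc) h1)
  refine (LinearMap.finrank_le_finrank_of_injective hφ).trans ?_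
  refine (finrank_range_le_card _).trans ?_
  rw [Fintype.card_prod, Fintype.card_fun, Fintype.card_fin]

end

theorem c_gro : S_GRO.{u, v} := by
  classical
  intro R K _ _ _ i htr E hfin
  obtain ⟨s, hs⟩ := exists_isTranscendenceBasis R K
  have hcard : Cardinal.mk s ≤ (i : Cardinal.{u}) := by
    rw [hs.cardinalMk_eq_trdeg]; exact htr
  have hsf : Finite s := by
    rw [← Cardinal.lt_aleph0_iff_finite]
    exact hcard.trans_lt (Cardinal.natCast_lt_aleph0)
  obtain ⟨h, ⟨eq⟩⟩ := Finite.exists_equiv_fin s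
  have hh : h ≤ i := by
    have h1 : Cardinal.mk s = (h : Cardinal.{u}) := by
      rw [Cardinal.mk_congr (eq.trans Equiv.ulift.symm : s ≃ ULift.{u} (Fin h))]
      simp
    rw [h1] at hcard
    exact_mod_cast hcard
  let t : Fin h → K := fun j => (eq.symm j : K)
  have hrange : Set.range t = s := by
    ext x
    constructor
    · rintro ⟨j, rfl⟩; exact (eq.symm j).2
    · intro hx; exact ⟨eq ⟨x, hx⟩, by simp [t]⟩
  have halg : Algebra.IsAlgebraic (IntermediateField.adjoin R (Set.range t)) K := by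
    rw [hrange]
    have := hs.isAlgebraic_field
    rwa [Subtype.range_coe] at this
  obtain ⟨S, hS⟩ : E.FG := Module.Finite.iff_fg.1 hfin
  let k0 := IntermediateField.adjoin R (Set.range t)
  let K1 := IntermediateField.adjoin k0 (S : Set K)
  have hK1 : FiniteDimensional k0 K1 :=
    IntermediateField.finiteDimensional_adjoin fun x _ => (halg.isAlgebraic x).isIntegral
  let ω := Module.finBasis k0 K1
  have hb : 0 < Module.finrank k0 K1 := Module.finrank_pos
  let w : Fin (Module.finrank k0 K1) → K := fun c => (ω c : K)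
  let γ : (S × Fin (Module.finrank k0 K1)) × Fin (Module.finrank k0 K1) → k0 := fun p =>
    ω.repr ((⟨p.1.1, IntermediateField.subset_adjoin k0 (S : Set K) p.1.1.2⟩ : K1) * ω p.1.2) p.2
  obtain ⟨g, hg, P, hP⟩ := common_denom t γ
  let δ : ℕ := Finset.univ.sup fun p => Finset.univ.sup fun j => degreeOf j (P p)
  have hδ : ∀ p j, degreeOf j (P p) ≤ δ := fun p j =>
    (Finset.le_sup (f := fun j => degreeOf j (P p)) (Finset.mem_univ j)).trans
      (Finset.le_sup (f := fun p => Finset.univ.sup fun j => degreeOf j (P p))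
        (Finset.mem_univ p))
  have hstep : ∀ (D : ℕ) (e : K), e ∈ E → ∀ x : K, x ∈ MD R t w D →
      g * e * x ∈ MD R t w (D + δ) := by
    intro D e he x hx
    rw [← hS] at he
    refine step t w δ g (S : Set K) (fun e a c => P ((e, a), c)) (fun e a c j => hδ _ _) ?_ D e he
      x hx
    intro e a
    have h1 := ω.sum_repr ((⟨e, IntermediateField.subset_adjoin k0 (S : Set K) e.2⟩ : K1) * ω a)
    have h2 := congrArg (fun z : K1 => (z : K)) h1
    have h3 : ((∑ c, ω.repr ((⟨e, IntermediateField.subset_adjoin k0 (S : Set K) e.2⟩ : K1)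
        * ω a) c • ω c : K1) : K) = ∑ c, ((γ ((e, a), c) : k0) : K) * w c := by
      rw [AddSubmonoidClass.coe_finsetSum]
      refine Finset.sum_congr rfl fun c _ => ?_
      rfl
    rw [h3] at h2
    have h4 : ((((⟨e, IntermediateField.subset_adjoin k0 (S : Set K) e.2⟩ : K1) * ω a : K1)) : K)
        = (e : K) * w a := rfl
    rw [h4] at h2
    rw [mul_assoc, ← h2, Finset.mul_sum]
    refine Finset.sum_congr rfl fun c _ => ?_
    rw [← mul_assoc, hP]
  refine ⟨(δ + 1) ^ h * Module.finrank k0 K1, fun m hm => ?_⟩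
  have hw : w ⟨0, hb⟩ ≠ 0 := by
    intro h0
    exact ω.ne_zero ⟨0, hb⟩ (Subtype.ext h0)
  refine (finrank_le t w δ g hg E hstep ⟨0, hb⟩ hw m).trans ?_
  rw [Fintype.card_fin, Fintype.card_fin]
  have h5 : (δ * m + 1) ^ h ≤ ((δ + 1) * m) ^ h := Nat.pow_le_pow_left (by nlinarith) h
  have h6 : m ^ h ≤ m ^ i := Nat.pow_le_pow_right hm hh
  calc (δ * m + 1) ^ h * Module.finrank k0 K1 ≤ ((δ + 1) * m) ^ h * Module.finrank k0 K1 :=
        Nat.mul_le_mul_right _ h5
    _ = (δ + 1) ^ h * Module.finrank k0 K1 * m ^ h := by rw [mul_pow]; ring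
    _ ≤ (δ + 1) ^ h * Module.finrank k0 K1 * m ^ i := Nat.mul_le_mul_left _ h6

end

end Pool.Agent.Helper48.Lang.GRO
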