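import Mathlib

/-!
# MP_c7dfba_nt: Lang's conjecture on nonreal fields over real closed fields, goals

THEOREM (full answer of Q1).  Let `K` be a nonreal field of transcendence degree at most `i` over a
real closed field `R`, and `f_1, ..., f_r` forms over `K` of degrees `d_j ≥ 1` in
`n > ∑ d_j ^ i` variables.  Then they have a common nontrivial zero.

IDEA: a minimum principle of second order.  `-1` is a sum of squares, so there are
`u_0 = 1, u_1, ..., u_s` in `K` with `∑ u_a ^ 2 = 0`.  Choose finite-dimensional `R`-subspaces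
`B, A` of `K` with `u_a B ⊆ A` and such that for every `x ∈ A^n` the `K`-linear equations
`D f_j(x) y = 0` have a solution `0 ≠ y ∈ B^n` (a dimension count as in the theorem of Tsen and
Lang).  If the `f_j` have no common nontrivial zero in `A^n`, let `x` be a point of the unit sphere
where the euclidean norm of `F = (f_j)` is minimal.  For all `v` with `D F(x) v = 0` the second
derivative of `|F|^2` in the direction `v` is positive; but the vectors `v_a = u_a y` all satisfy
`D F(x) v_a = 0` and the sum of the second derivatives is the real part of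
`(∑ u_a ^ 2) D^2 f(x)(y, y) = 0`, a contradiction.

Every goal is a `def S_XX : Prop` with its complete proof.  Deliver
`Pool/Agent/<YourSeat>/Lang/XX.lean`, importing this file, with a theorem `c_xx` as said in the
packet.
-/

set_option autoImplicit false

namespace Pool.Agent.Helper48.Lang

noncomputable section

open MvPolynomial

universe u v

section Defs

variable {σ k : Type*} [Fintype σ] [CommRing k]

/-- the first derivative of `P` at `x` in the direction `v`. -/
def D1 (P : MvPolynomial σ k) (x v : σ → k) : k := ∑ p, eval x (pderiv p P) * v p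

/-- the second derivative of `P` at `x` in the direction `v`. -/
def D2 (P : MvPolynomial σ k) (x v : σ → k) : k :=
  ∑ p, ∑ q, eval x (pderiv p (pderiv q P)) * (v p * v q)

end Defs

/-- the statement of the minimum principle over the field `R`, as polynomial identities. -/
def MP (R : Type u) [Field R] : Prop :=
  ∀ (N k : ℕ) (F : Fin k → MvPolynomial (Fin N) R) (D : Fin k → ℕ), 0 < N → (∀ l, 1 ≤ D l) →
    (∀ l, (F l).IsHomogeneous (D l)) →
    ∃ (x : Fin N → R) (L : Fin N → Fin N → R) (M : Fin k → Fin N → R), ∑ p, x p ^ 2 = 1 ∧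
      ∀ p q, ∑ l, eval x (F l) * eval x (pderiv p (pderiv q (F l)))
        = (∑ l, eval x (F l) ^ 2) * (if p = q then 1 else 0) + ∑ a, L a p * L a q
          + ∑ l, (M l p * eval x (pderiv q (F l)) + M l q * eval x (pderiv p (F l)))

/-- **TAY** (packet TAY): Taylor expansion up to order two along a line.
PROOF.  Induction on `P` (`MvPolynomial.induction_on`): for constants `D1 = D2 = 0`, remainder `0`;
sums: add the remainders; `P * X j`: if `P(x + e v) = P + e D1 + e^2/2 D2 + e^3 r(e)` then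
multiply by `x_j + e v_j`; `pderiv p (P * X j) = pderiv p P * X j + P * [p = j]`, so
`D1 (P X_j) = D1 P x_j + P v_j`, `D2 (P X_j) = D2 P x_j + 2 D1 P v_j`.  The remainder is a
polynomial in `e`. -/
def S_TAY : Prop :=
  ∀ (N : ℕ) (P : MvPolynomial (Fin N) ℝ) (x v : Fin N → ℝ), ∃ r : Polynomial ℝ, ∀ e : ℝ,
    eval (fun p => x p + e * v p) P
      = eval x P + e * D1 P x v + e ^ 2 / 2 * D2 P x v + e ^ 3 * r.eval e

/-- **MIN** (packet MIN; hypothesis allowed: S_TAY): the minimum principle over the real numbers.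
PROOF.  `g(y) = ∑_l F_l(y)^2` is continuous and the unit sphere `{y : ∑ y_p^2 = 1}` of `Fin N → ℝ` is
compact (closed and bounded) and nonempty (`N > 0`: a unit vector).  Let `x` be a minimum point
(`IsCompact.exists_isMinOn`), `g0 = g(x) ≥ 0`.  (a) For every `y` with `|y|^2 := ∑ y_p^2 ≥ 1`:
`g(y) ≥ |y|^2 g0`.  Namely let `t = |y| ≥ 1`, `y = t z` with `|z| = 1`;
`F_l(y) = t^(D_l) F_l(z)` (`IsHomogeneous.eval₂`/`MvPolynomial.IsHomogeneous.eval_smul`-like), so
`F_l(y)^2 = t^(2 D_l) F_l(z)^2 ≥ t^2 F_l(z)^2` as `D_l ≥ 1`, so `g(y) ≥ t^2 g(z) ≥ t^2 g0`.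
(b) Let `D1 (F_l) x v = 0` for all `l`.  If `∑ x_p v_p < 0` replace `v` by `-v` (`D1`, `D2`, `|v|^2` are
compatible), so assume `∑ x_p v_p ≥ 0`.  For `e > 0`, `|x + e v|^2 = 1 + 2 e ∑ x_p v_p + e^2 |v|^2 ≥
1 + e^2 |v|^2 ≥ 1`.  By (a) and TAY: `∑_l (F_l + e^2/2 D2_l + e^3 r_l(e))^2 ≥ (1 + e^2 |v|^2) g0`, i.e.
`g0 + e^2 ∑ F_l D2_l + e^3 h(e) ≥ g0 + e^2 |v|^2 g0` with a polynomial (continuous function) `h`.
Divide by `e^2`: `∑ F_l D2_l + e h(e) ≥ |v|^2 g0` for all `e > 0`; let `e → 0+`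
(`ge_of_tendsto` with `nhdsWithin 0 (Set.Ioi 0)`). -/
def S_MIN : Prop :=
  ∀ (N k : ℕ) (F : Fin k → MvPolynomial (Fin N) ℝ) (D : Fin k → ℕ), 0 < N → (∀ l, 1 ≤ D l) →
    (∀ l, (F l).IsHomogeneous (D l)) →
    ∃ x : Fin N → ℝ, ∑ p, x p ^ 2 = 1 ∧ ∀ v : Fin N → ℝ, (∀ l, D1 (F l) x v = 0) →
      (∑ l, eval x (F l) ^ 2) * ∑ p, v p ^ 2 ≤ ∑ l, eval x (F l) * D2 (F l) x v

/-- **CERT** (packet CERT): a quadratic form that is nonnegative on the kernel of linear forms is a
sum of squares modulo these linear forms.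
PROOF.  Let `U = {v : ∀ l, A_l v = 0}` and `π` a linear projection of `ℝ^N` onto `U` (e.g.
`Submodule.exists_isCompl`, or the orthogonal projection in `EuclideanSpace`).  The linear map
`id - π` vanishes on `U = ker A` (`A v = (A_l v)_l`), so there is a linear `w : ℝ^k → ℝ^N` with
`id - π = w ∘ A` (`LinearMap.exists_extend` applied to the map induced on the range of `A`).
`s(v, v') = ∑ S_pq v_p v'_q` (symmetric bilinear), `s(v,v) ≥ 0` on `U`.  The form
`v ↦ s(π v, π v)` is positive semidefinite on `ℝ^N`, so its matrix is `L^T L`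
(`Matrix.PosSemidef`: `Matrix.posSemidef_iff_eq_conjTranspose_mul_self` or the square root).
`s(v,v) - s(πv,πv) = s(v + πv, v - πv) = s(v + πv, w(A v)) = ∑_l A_l(v) m_l(v)` with the linear forms
`m_l(v) = s(v + πv, w(e_l))`.  Compare the symmetric matrices of both sides:
`S_pq = (L^T L)_pq + (1/2) ∑_l (m_lp A_lq + m_lq A_lp)`, `M = m/2`. -/
def S_CERT : Prop :=
  ∀ (N k : ℕ) (S : Matrix (Fin N) (Fin N) ℝ) (A : Fin k → Fin N → ℝ), S.transpose = S →
    (∀ v : Fin N → ℝ, (∀ l, ∑ p, A l p * v p = 0) → 0 ≤ ∑ p, ∑ q, S p q * (v p * v q)) →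
    ∃ (L : Fin N → Fin N → ℝ) (M : Fin k → Fin N → ℝ), ∀ p q, S p q
      = ∑ a, L a p * L a q + ∑ l, (M l p * A l q + M l q * A l p)

/-- **MPR** (packet MPR; hypotheses allowed: S_MIN, S_CERT): `MP ℝ`.
PROOF.  `x` from MIN; `S_pq = ∑_l F_l(x) ∂_p∂_q F_l(x) - g [p = q]`, `g = ∑ F_l(x)^2`, symmetric since
`pderiv p (pderiv q F) = pderiv q (pderiv p F)` (`MvPolynomial.pderiv_pderiv`-commutation; derivations
commute, e.g. by `MvPolynomial.induction_on` or Mathlib `pderiv_comm`); `A_lp = ∂_p F_l(x)`.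
`∑ S_pq v_p v_q = ∑_l F_l D2 F_l x v - g |v|^2 ≥ 0` on the kernel by MIN.  CERT gives `L`, `M`. -/
def S_MPR : Prop := MP ℝ

/-- **MPT** (packet MPT): transfer of the minimum principle to all real closed fields.  Prove
`Pool.Agent.Helper70.RC.TT.{u} → MP ℝ → S_MPT.{u}` (TT: `Pool/Agent/Helper70/RC/Goals.lean`, proved as
`Pool.Agent.Helper70.TW.Link.tt`; models of its use: `Pool/Agent/Helper39/TW/Burc.lean`).
PROOF.  Fix `N, k, D`.  `A = Σ l : Fin k, {μ : Fin N →₀ ℕ // μ.degree = D l}`-like finite type of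
coefficients (e.g. `Fin k × {μ // μ ∈ Finset of exponents with all entries ≤ D}`; it may contain
more monomials, take `μ ∈ Finset.Iic`/`Finsupp` boxes, and include only those of degree `D l`),
`B = Fin N ⊕ (Fin N × Fin N) ⊕ (Fin k × Fin N)` for `x, L, M`.  The generic polynomial
`G_l = ∑_μ X(inl (l, μ)) * ∏_p X(inr (inl p))^(μ p)` in `MvPolynomial (A ⊕ B) ℤ`; its derivatives by
`X(inr (inl p))` are `pderiv (inr (inl p)) G_l`.  For a commutative ring `R`, `c : A → R` and
`F_l = ∑_μ c(l,μ) X^μ`: `aeval (c, (x, L, M)) G_l = eval x F_l`, and the same for the first and second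
derivatives (check on monomials: `pderiv_monomial`, or define `G_l` and its derivatives by explicit
sums of monomials).  The equations: `∑ x_p^2 - 1 = 0` and, for all `p, q`, the difference of both sides
of `MP` (the Kronecker delta is an integer constant): integer polynomials in `A ⊕ B`.  Over `ℝ` they
are solvable for all `c` by `MP ℝ` (`F_l` is homogeneous of degree `D_l`), so by TT over `R`; given
homogeneous `F_l` over `R` let `c` be its coefficients (`F_l` is the sum of its monomials, all of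
degree `D l`). -/
def S_MPT : Prop := ∀ (R : Type u) [Field R] [IsRealClosed R], MP R

/-- **LC** (packet LC): the conclusion of the minimum principle.
PROOF.  Take an ordering of `R` (`Pool.Agent.Helper70.RC.exists_order`, file `Helper70/RC/Base.lean`).
`x, L, M` from `MP R`, `g = ∑ F_l(x)^2`.  For every `v` multiply the identity `(p,q)` by `v_p v_q` and sum:
`∑_l F_l(x) D2 F_l x v = g ∑ v_p^2 + ∑_a (∑_p L_ap v_p)^2 + 2 ∑_l (∑_p M_lp v_p) D1 F_l x v`.
Take `v = v_a` of the hypothesis for this `x`, the last sum is `0`; sum over `a`; the left side is `0`: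
`0 = ∑_a (g |v_a|^2 + ∑_b (∑_p L_bp v_ap)^2)`, all terms are `≥ 0`, so `g |v_0|^2 = 0`; `v_0 ≠ 0`, so
`|v_0|^2 > 0` and `g = 0`, so `F_l(x) = 0` for all `l`; `x ≠ 0` as `∑ x_p^2 = 1`. -/
def S_LC : Prop :=
  ∀ (R : Type u) [Field R] [IsRealClosed R], MP R → ∀ (N k s : ℕ)
    (F : Fin k → MvPolynomial (Fin N) R) (D : Fin k → ℕ), 0 < N → (∀ l, 1 ≤ D l) →
    (∀ l, (F l).IsHomogeneous (D l)) →
    (∀ x : Fin N → R, ∃ v : Fin (s + 1) → Fin N → R, v 0 ≠ 0 ∧ (∀ a l, D1 (F l) x (v a) = 0) ∧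
      ∀ l, ∑ a, D2 (F l) x (v a) = 0) →
    ∃ x : Fin N → R, x ≠ 0 ∧ ∀ l, eval x (F l) = 0

/-- **CHAIN** (packet CHAIN): chain rule for linear substitutions, with coefficient functionals.
`G = f(∑_c e_ic X_c)`; `φ` an `R`-linear functional on `K` applied to the coefficients of `G` gives `F`.
PROOF.  (1) Let `G = bind₁ (fun i => ∑ c, C (e i c) * X c) f ∈ K[X_c]`.  For `z` over `K`:
`eval z G = eval (e z) f`, `(e z)_i = ∑_c e_ic z_c`; `pderiv c G = ∑_i bind₁ (..) (pderiv i f) * C (e i c)`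
(induction on `f`, or: both sides are derivations along the algebra map `bind₁`), so
`D1 G z v = D1 f (e z) (e v)` and, applying it twice, `D2 G z v = D2 f (e z) (e v)`.
`G` is homogeneous of degree `D` if `f` is (`IsHomogeneous` of `bind₁` by linear forms; or by
`eval`/monomials: each monomial of degree `D` goes to a product of `D` linear forms).
(2) `F = ∑_{μ ∈ G.support} monomial μ (φ (coeff μ G))`, so `coeff μ F = φ (coeff μ G)` for all `μ`;
homogeneous of degree `D`.  For `z` over `R` (mapped to `K`): `eval z F = φ (eval z G)`, as `z^μ ∈ R` and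
`φ` is `R`-linear; `coeff ν (pderiv p F)` is `(ν_p + 1) coeff (ν + p) F`, so `pderiv p F` comes from
`pderiv p G` in the same way; so `D1 F z v = φ (D1 G z v)`, `D2 F z v = φ (D2 G z v)` for `z, v` over `R`. -/
def S_CHAIN : Prop :=
  ∀ (R : Type v) (K : Type u) [Field R] [Field K] [Algebra R K] (n N D : ℕ)
    (f : MvPolynomial (Fin n) K) (_ : f.IsHomogeneous D) (e : Fin n → Fin N → K)
    (φ : K →ₗ[R] R), ∃ F : MvPolynomial (Fin N) R, F.IsHomogeneous D ∧
      ∀ z w : Fin N → R, let E : (Fin N → R) → Fin n → K := fun z i => ∑ c, z c • e i c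
        eval z F = φ (eval (E z) f) ∧ D1 F z w = φ (D1 f (E z) (E w)) ∧
        D2 F z w = φ (D2 f (E z) (E w))

/-- **KP** (packet KP; hypotheses allowed: S_LC, S_CHAIN, S_MPT): passage to `K`.
PROOF.  If `n = 0`: the hypothesis for the empty `x` gives `y ≠ 0` in `Fin 0 → K`, impossible.
`A` is not `0`: `y_i ≠ 0` for some `i`, `y_i ∈ B`, `u 0 = 1`, so `0 ≠ y_i ∈ A`.  Let `b : Fin m → A` be a basis of `A`
over `R`, `m ≥ 1`, `N = n m`, `Fin N ≃ Fin n × Fin m` (`finProdFinEquiv`), `e : Fin n → Fin N → K`,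
`e i c = b c.2` if `c.1 = i`, else `0`.  So `z ↦ E z` is a bijection `R^N → A^n` (linear).
Let `W` be the `R`-span of the finite set of all coefficients of the polynomials
`G_j = bind₁ (fun i => ∑ c, C (e i c) * X c) (f j)`; `eval (E z) (f j) = eval z G_j ∈ W` for `z` over `R`.
(ALTERNATIVE for `W`: any finite-dimensional `R`-subspace containing all products
(coefficient of `f j`) * (product of `d j` elements of `A`).)  `W` is finite-dimensional, so there are
finitely many `φ_l : K →ₗ[R] R` such that `w ∈ W`, `φ_l w = 0` for all `l` imply `w = 0` (basis of `W`,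
dual basis, extended to `K` by `LinearMap.exists_extend`).  Apply CHAIN to `f j`, `e`, `φ_l`: polynomials
`F_{j,l}` (re-index `Fin r × Fin t` by `Fin (r t)`), homogeneous of degree `d j ≥ 1`.
LC: let `z : Fin N → R`, `x = E z ∈ A^n`, `y` from the hypothesis; `u_a y ∈ A^n` is `E v_a` for a unique
`v_a : Fin N → R`, `v_0 ≠ 0` as `y ≠ 0`.  `D1 F_{j,l} z v_a = φ_l (D1 (f j) x (u_a y)) =
φ_l (u_a D1 (f j) x y) = 0`, `∑_a D2 F_{j,l} z v_a = φ_l ((∑_a u_a^2) D2 (f j) x y) = 0`.  So LC gives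
`z ≠ 0` with `F_{j,l}(z) = 0` for all `j, l`, i.e. `φ_l (eval (E z) (f j)) = 0` for all `l`, so
`eval (E z) (f j) = 0`; `E z ≠ 0`. -/
def S_KP : Prop :=
  ∀ (R : Type v) (K : Type u) [Field R] [IsRealClosed R] [Field K] [Algebra R K] (n r s : ℕ)
    (d : Fin r → ℕ) (f : Fin r → MvPolynomial (Fin n) K), (∀ j, 1 ≤ d j) →
    (∀ j, (f j).IsHomogeneous (d j)) → ∀ (A B : Submodule R K), Module.Finite R A →
    ∀ u : Fin (s + 1) → K, u 0 = 1 → ∑ a, u a ^ 2 = 0 → (∀ a, ∀ b ∈ B, u a * b ∈ A) →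
    (∀ x : Fin n → K, (∀ i, x i ∈ A) → ∃ y : Fin n → K, y ≠ 0 ∧ (∀ i, y i ∈ B) ∧
      ∀ j, D1 (f j) x y = 0) →
    ∃ x : Fin n → K, x ≠ 0 ∧ ∀ j, eval x (f j) = 0

/-- **GRO** (packet GRO): growth.
PROOF.  `E` is the `R`-span of a finite set `S ⊂ K`.  Let `K' = IntermediateField.adjoin R S`.  There is a
transcendence basis `t_1, ..., t_h` of `K'` over `R` (or of `Algebra.adjoin R S`; e.g. inside `S`,
`exists_isTranscendenceBasis_subset`-like), `h ≤ i` by the bound of the transcendence degree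
(`h = trdeg K' ≤ trdeg K`, or: an algebraically independent family in `K` has at most `trdeg` elements).
`k₀ = R(t) = IntermediateField.adjoin R (range t)`; all elements of `S` are algebraic over `k₀`, so
`K₁ = k₀(S)` (a subfield of `K` containing `E`) is a finite extension of `k₀`; let `ω_1, ..., ω_b` be a basis.
For the finitely many `e ∈ S`: `e ω_a = ∑_c γ_{e,a,c} ω_c` with `γ ∈ k₀`; every element of `k₀` is
`P(t)/Q(t)` with polynomials `P, Q ∈ MvPolynomial (Fin h) R`, `Q(t) ≠ 0`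
(`IntermediateField.mem_adjoin_range_iff`), so there is a common denominator: `g = Q(t) ≠ 0` and polynomials
`P_{e,a,c}` with `g e ω_a = ∑_c P_{e,a,c}(t) ω_c`.  Let all degrees `degreeOf` of the `P`'s be `≤ δ`, and for
`D : ℕ` let `M_D` be the `R`-span of the elements `t^μ ω_c`, `μ : Fin h → Fin (D+1)`, `c ≤ b`:
`finrank M_D ≤ (D+1)^h b` (`finrank_range_le_card`/`finrank_span_le_card`).  For `e ∈ S`:
`g e M_D ⊆ M_{D + δ}`, hence for `e ∈ E`; by induction on `m`, `g^m x ω_1 ∈ M_{δ m}` for `x ∈ E^m`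
(`Submodule.pow_induction_on_left`/`Submodule.pow_succ`, `Submodule.mul_induction_on`).
Multiplication by `g^m ω_1 ≠ 0` is injective, so
`finrank E^m ≤ finrank M_{δ m} ≤ b (δ m + 1)^h ≤ b (δ + 1)^h m^h ≤ C m^i` for `m ≥ 1`, `C = b (δ + 1)^h`. -/
def S_GRO : Prop :=
  ∀ (R : Type v) (K : Type u) [Field R] [Field K] [Algebra R K] (i : ℕ),
    Algebra.trdeg R K ≤ (i : Cardinal.{u}) → ∀ E : Submodule R K, Module.Finite R E →
    ∃ C : ℕ, ∀ m : ℕ, 1 ≤ m → Module.finrank R (E ^ m : Submodule R K) ≤ C * m ^ i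

/-- **CNT** (packet CNT): counting.
PROOF.  Suppose that `n a(m) ≤ ∑_j a(d_j (m+1))` for all `m ≥ 1`.  `s = ∑ d_j^i < n`, so `s (1 + 1/M)^i < n` for
some `M ≥ 1` (the left side tends to `s`); let `θ = s (1 + 1/M)^i / n < 1`.  Claim: `a(m) ≤ θ^k C m^i` (in `ℝ`)
for all `k` and all `m ≥ M`.  `k = 0`: hypothesis.  Step: for `m ≥ M`, `d_j (m + 1) ≥ m ≥ M`, so
`n a(m) ≤ ∑_j θ^k C (d_j (m+1))^i = θ^k C s (m+1)^i ≤ θ^k C s (1 + 1/M)^i m^i = θ^k C n θ m^i`.
For `k → ∞` at `m = M`: `a(M) ≤ 0`, but `a(M) ≥ 1`. -/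
def S_CNT : Prop :=
  ∀ (i n r C : ℕ) (d : Fin r → ℕ) (a : ℕ → ℕ), (∀ j, 1 ≤ d j) → ∑ j, d j ^ i < n →
    (∀ m, 1 ≤ m → 1 ≤ a m) → (∀ m, 1 ≤ m → a m ≤ C * m ^ i) →
    ∃ m, 1 ≤ m ∧ ∑ j, a (d j * (m + 1)) < n * a m

/-- **DEG** (packet DEG): the values of the derivative.
PROOF.  `E` contains `1` and the coefficients of `f`.  `pderiv p f` is a sum of monomials with coefficients
`μ_p coeff μ f ∈ E` (natural multiples) and exponents of total degree `D - 1`; evaluated at `x ∈ (E^(m+1))^n`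
they are in `E * (E^(m+1))^(D-1)`; times `y_p ∈ E^m`: in `E^(1 + (m+1)(D-1) + m) = E^(D (m+1))`. -/
def S_DEG : Prop :=
  ∀ (R : Type v) (K : Type u) [Field R] [Field K] [Algebra R K] (n D m : ℕ)
    (f : MvPolynomial (Fin n) K), 1 ≤ D → f.IsHomogeneous D → ∀ E : Submodule R K,
    (∀ μ, coeff μ f ∈ E) → ∀ x y : Fin n → K, (∀ p, x p ∈ E ^ (m + 1)) → (∀ p, y p ∈ E ^ m) →
    D1 f x y ∈ E ^ (D * (m + 1))

/-- **FIN** (packet FIN; hypotheses allowed: S_KP, S_GRO, S_CNT, S_DEG): the theorem.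
PROOF.  `IsSumSq (-1)`: there are `s` and `u : Fin (s+1) → K`, `u 0 = 1`, `∑ u_a^2 = 0` (induction on
`IsSumSq`).  `E` = span of `1`, the `u_a` and the coefficients of the `f_j`, finite-dimensional;
`a(m) = finrank (E^m) ≥ 1` (`1 ∈ E^m`), GRO gives `C`, CNT gives `m`.  `B = E^m`, `A = E^(m+1)`
(finite-dimensional: `Submodule.FG.pow`), `u_a B ⊆ E E^m = A`.  For `x ∈ A^n` the `R`-linear map
`B^n → ∏_j E^(d_j (m+1))`, `y ↦ (D1 (f j) x y)_j` (DEG) has a nonzero kernel, because
`n a(m) > ∑_j a(d_j (m+1))` (`LinearMap.exists_ne_zero_of_finrank_lt`-like, finranks of products).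
KP gives the zero. -/
def S_FIN : Prop :=
  ∀ (R : Type v) (K : Type u) [Field R] [IsRealClosed R] [Field K] [Algebra R K] (i : ℕ),
    Algebra.trdeg R K ≤ (i : Cardinal.{u}) → IsSumSq (-1 : K) → ∀ (n r : ℕ) (d : Fin r → ℕ)
    (f : Fin r → MvPolynomial (Fin n) K), (∀ j, 1 ≤ d j) → (∀ j, (f j).IsHomogeneous (d j)) →
    ∑ j, d j ^ i < n → ∃ a : Fin n → K, a ≠ 0 ∧ ∀ j, eval a (f j) = 0

end

end Pool.Agent.Helper48.Lang
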